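import Pool.Agent.Helper3.FC.Goals

set_option autoImplicit false

namespace Pool.Agent.Helper35.FC.F34

open Pool.Agent.Helper3.FC
open scoped Classical BigOperators

theorem mix_mem {η : ℝ} (h0 : 0 ≤ η) (h1 : η ≤ 1) {y : ℕ → ℝ} (j : ℕ) :
    (∀ i < j, 0 ≤ y i ∧ y i ≤ 1) → 0 ≤ mix η y j ∧ mix η y j ≤ 1 := by
  induction j with
  | zero => intro _; simp [mix]
  | succ j ih =>
    intro hy
    obtain ⟨a1, a2⟩ := ih fun i hi => hy i (by omega)
    obtain ⟨b1, b2⟩ := hy j (by omega)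
    simp only [mix]
    constructor
    · have := mul_nonneg (by linarith : 0 ≤ 1 - η) a1
      have := mul_nonneg h0 b1
      linarith
    · have := mul_nonneg (by linarith : 0 ≤ 1 - η) (by linarith : 0 ≤ 1 - mix η y j)
      have := mul_nonneg h0 (by linarith : 0 ≤ 1 - y j)
      nlinarith

theorem pow_exp {x : ℝ} (h1 : x ≤ 1) (m : ℕ) : (1 - x) ^ m ≤ Real.exp (-(m * x)) := by
  have h := Real.add_one_le_exp (-x)
  calc (1 - x) ^ m ≤ (Real.exp (-x)) ^ m := pow_le_pow_left₀ (by linarith) (by linarith) m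
    _ = Real.exp (-(m * x)) := by rw [← Real.exp_nat_mul]; congr 1; ring

/-- the weights over one group of a block -/
theorem weight_one {n : ℕ} {J : Fin n → Type} [∀ l, Fintype (J l)] (ρ : ∀ l, J l → ℝ)
    (hs : ∀ l, ∑ i, ρ l i = 1) (l : Fin n) (i : J l) :
    ∑ g : ∀ l, J l, (if g l = i then ∏ l' ∈ Finset.univ.erase l, ρ l' (g l') else 0) = 1 := by
  obtain ⟨f, hf⟩ : ∃ f : ∀ l, J l → ℝ, f = Function.update ρ l (fun j => if j = i then 1 else 0) :=
    ⟨_, rfl⟩
  have e1 : ∀ g : ∀ l, J l, (if g l = i then ∏ l' ∈ Finset.univ.erase l, ρ l' (g l') else 0) =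
      ∏ l', f l' (g l') := by
    intro g
    rw [← Finset.mul_prod_erase Finset.univ _ (Finset.mem_univ l)]
    have e2 : f l (g l) = if g l = i then 1 else 0 := by rw [hf, Function.update_self]
    have e3 : ∏ x ∈ Finset.univ.erase l, f x (g x) = ∏ l' ∈ Finset.univ.erase l, ρ l' (g l') := by
      refine Finset.prod_congr rfl fun l' hl' => ?_
      rw [hf, Function.update_of_ne (Finset.ne_of_mem_erase hl')]
    rw [e2, e3]
    split_ifs <;> simp
  rw [Finset.sum_congr rfl fun g _ => e1 g]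
  have e4 := Finset.prod_univ_sum (fun l' : Fin n => (Finset.univ : Finset (J l'))) f
  rw [Fintype.piFinset_univ] at e4
  rw [← e4]
  refine Finset.prod_eq_one fun l' _ => ?_
  by_cases h : l' = l
  · subst h
    rw [hf, Function.update_self]
    simp
  · rw [hf, Function.update_of_ne h]
    exact hs l'

section
variable {m n w kz L : ℕ} {η : ℝ} (W : World m n w kz L η)

theorem avg_mem {L : ℕ} (hL : 1 ≤ L) (s : ℕ → ℝ) (hs : ∀ j < L, 0 ≤ s j ∧ s j ≤ 1) :
    0 ≤ (∑ j ∈ Finset.range L, s j) / L ∧ (∑ j ∈ Finset.range L, s j) / L ≤ 1 := by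
  have hL' : (0 : ℝ) < L := by exact_mod_cast hL
  constructor
  · exact div_nonneg (Finset.sum_nonneg fun j hj => (hs j (Finset.mem_range.1 hj)).1) hL'.le
  · rw [div_le_one hL']
    calc ∑ j ∈ Finset.range L, s j ≤ ∑ _j ∈ Finset.range L, (1 : ℝ) :=
          Finset.sum_le_sum fun j hj => (hs j (Finset.mem_range.1 hj)).2
      _ = L := by simp

theorem x_mem (hL : 1 ≤ L) (l : Fin n) (i : W.J l) : 0 ≤ W.x l i ∧ W.x l i ≤ 1 := by
  refine avg_mem hL _ fun j hj => ?_
  have h0 : ∀ g : ∀ l, W.J l,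
      0 ≤ (if g l = i then ∏ l' ∈ Finset.univ.erase l, W.ρ l' (g l') else 0) := by
    intro g
    split_ifs
    · exact Finset.prod_nonneg fun l' _ => W.ρ_nonneg l' _
    · exact le_rfl
  constructor
  · exact Finset.sum_nonneg fun g _ => mul_nonneg (h0 g) (W.yX_nonneg j hj g)
  · calc _ ≤ ∑ g : ∀ l, W.J l,
          (if g l = i then ∏ l' ∈ Finset.univ.erase l, W.ρ l' (g l') else 0) :=
          Finset.sum_le_sum fun g _ => mul_le_of_le_one_right (h0 g) (W.yX_le j hj g)
      _ = 1 := weight_one W.ρ W.ρ_sum l i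

theorem v_mem (hL : 1 ≤ L) (l : Fin n) (i : W.J l) : 0 ≤ W.v l i ∧ W.v l i ≤ 1 :=
  avg_mem hL _ fun j hj => ⟨W.yV_nonneg j hj l i, W.yV_le j hj l i⟩

end

theorem param {m : ℕ} (hm : 1 ≤ m) : 0 < Real.log (4 * m) ∧ 0 < Lam m ∧ 0 ≤ pη m ∧ pη m ≤ 1 := by
  have hm' : (1 : ℝ) ≤ m := by exact_mod_cast hm
  have h1 : 0 < Real.log (4 * m) := Real.log_pos (by linarith)
  have h2 : Real.log (4 * m) ≤ 4 * m := (Real.log_le_sub_one_of_pos (by linarith)).trans (by linarith)
  have h3 : 0 < Lam m := div_pos h1 (by linarith)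
  have h4 : Lam m ≤ 1 := by
    unfold Lam
    rw [div_le_one (by linarith)]
    exact h2
  refine ⟨h1, h3, ?_, ?_⟩
  · unfold pη; positivity
  · unfold pη; linarith

theorem alpha {m : ℕ} (hm : 1 ≤ m) (x c : ℝ) :
    c * x / (4 * Lam m) * Real.log (4 * m) = m * (c * x) := by
  obtain ⟨h1, h2, _, _⟩ := param hm
  have hm' : (0 : ℝ) < m := by exact_mod_cast hm
  unfold Lam
  field_simp

theorem t (h : CBStmt) : F3 ∧ F4 := by
  obtain ⟨m₀, hm₀⟩ := h
  constructor
  · refine ⟨max m₀ 1, fun m hm => ?_⟩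
    obtain ⟨L₀, hL₀⟩ := hm₀ m (le_of_max_le_left hm)
    have hm1 : 1 ≤ m := le_of_max_le_right hm
    obtain ⟨p1, p2, p3, p4⟩ := param hm1
    refine ⟨max L₀ 1, fun L hL W l i => ?_⟩
    have hL1 : 1 ≤ L := le_of_max_le_right hL
    obtain ⟨x0, x1⟩ := x_mem W hL1 l i
    have key := hL₀ L (le_of_max_le_left hL) 3 (by norm_num) (by norm_num) (W.x l i / (4 * Lam m))
      (by positivity) (fun j => W.yV j l i)
      (fun j hj => ⟨W.yV_nonneg j hj l i, W.yV_le j hj l i⟩) ?_
    · have e : ((4 : ℝ) / (3 : ℕ)) = 4 / 3 := by norm_num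
      rw [e] at key
      exact key
    · intro j hj
      refine (W.yV_chain j hj l i).trans ?_
      obtain ⟨q0, q1⟩ := mix_mem p3 p4 (y := fun j' => W.yV j' l i) j
        fun i' hi' => ⟨W.yV_nonneg i' (by omega) l i, W.yV_le i' (by omega) l i⟩
      have h1 : (1 - W.x l i) ^ m ≤ Real.exp (-(W.x l i / (4 * Lam m) * Real.log (4 * m))) := by
        have := alpha hm1 (W.x l i) 1
        rw [one_mul] at this
        rw [this]
        exact pow_exp x1 m
      refine mul_le_mul_of_nonneg_right ?_ (pow_nonneg (by linarith) _)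
      exact mul_le_mul_of_nonneg_left h1 (by norm_num)
  · refine ⟨max m₀ 1, fun m hm => ?_⟩
    obtain ⟨L₀, hL₀⟩ := hm₀ m (le_of_max_le_left hm)
    have hm1 : 1 ≤ m := le_of_max_le_right hm
    obtain ⟨p1, p2, p3, p4⟩ := param hm1
    refine ⟨max L₀ 1, fun L hL W l i => ?_⟩
    have hL1 : 1 ≤ L := le_of_max_le_right hL
    obtain ⟨x0, x1⟩ := v_mem W hL1 l i
    have key := hL₀ L (le_of_max_le_left hL) 1 (by norm_num) (by norm_num)
      (3 * W.v l i / (4 * Lam m))
      (by positivity) (fun j => W.yZ j l i)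
      (fun j hj => ⟨W.yZ_nonneg j hj l i, W.yZ_le j hj l i⟩) ?_
    · have e : ((4 : ℝ) / (1 : ℕ)) = 4 := by norm_num
      rw [e] at key
      exact key
    · intro j hj
      refine (W.yZ_chain j hj l i).trans ?_
      obtain ⟨q0, q1⟩ := mix_mem p3 p4 (y := fun j' => W.yZ j' l i) j
        fun i' hi' => ⟨W.yZ_nonneg i' (by omega) l i, W.yZ_le i' (by omega) l i⟩
      have h1 : (1 - W.v l i) ^ (3 * m) ≤
          Real.exp (-(3 * W.v l i / (4 * Lam m) * Real.log (4 * m))) := by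
        rw [alpha hm1]
        have := pow_exp x1 (3 * m)
        push_cast at this
        rw [show (m : ℝ) * (3 * W.v l i) = 3 * m * W.v l i by ring]
        exact this
      rw [one_mul]
      refine mul_le_mul_of_nonneg_right ?_ (pow_nonneg (by linarith) _)
      exact mul_le_mul_of_nonneg_left h1 (by norm_num)

end Pool.Agent.Helper35.FC.F34
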